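import Pool.Agent.H82.PRP.Stmts

/-!
# Finite dimensionality and upper bound for `a_n(G)`
-/

namespace Pool.Agent.H82.PRP.AUP

variable {p : ℕ} {G : Type} [Group G] [TopologicalSpace G]

/-- the whole group -/
def topON (G : Type) [Group G] [TopologicalSpace G] : OpenNormalSubgroup G :=
  { toOpenSubgroup := ⊤
    isNormal' := by
      change (⊤ : Subgroup G).Normal
      infer_instance }

lemma exists_lower {ι : Type*} (s : Finset ι) (U : ι → OpenNormalSubgroup G) :
    ∃ V : OpenNormalSubgroup G, ∀ i ∈ s, V.toSubgroup ≤ (U i).toSubgroup := by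
  classical
  induction s using Finset.induction_on with
  | empty => exact ⟨topON G, fun i hi => absurd hi (Finset.notMem_empty i)⟩
  | insert a s _ ih =>
    obtain ⟨V, hV⟩ := ih
    refine ⟨V ⊓ U a, fun i hi => ?_⟩
    intro x hx
    have hx' : x ∈ V.toSubgroup ∧ x ∈ (U a).toSubgroup := hx
    rcases Finset.mem_insert.mp hi with rfl | h
    · exact hx'.2
    · exact hV i h hx'.1

/-- evaluation at `U` -/
def ev (p : ℕ) {G : Type} [Group G] [TopologicalSpace G] (U : OpenNormalSubgroup G) :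
    CGA p G →ₗ[ZMod p] MonoidAlgebra (ZMod p) (G ⧸ U.toSubgroup) where
  toFun f := f.1 U
  map_add' _ _ := rfl
  map_smul' _ _ := rfl

lemma card_le [Fact p.Prime] [IsTopologicalGroup G] [CompactSpace G] (hA : AUGBStmt)
    (hC : CLOStmt) {k : ℕ} (hk : GenBy G k) {B n : ℕ} (hn : 1 ≤ n)
    (hB : ∀ U : OpenNormalSubgroup G, Module.finrank (ZMod p) (MonoidAlgebra (ZMod p)
      (G ⧸ U.toSubgroup) ⧸ (augI p (G ⧸ U.toSubgroup)) ^ n) ≤ B)
    {ι : Type} [Fintype ι] (w : ι → CGA p G ⧸ (augIhat p G) ^ n)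
    (hw : LinearIndependent (ZMod p) w) : Fintype.card ι ≤ B := by
  classical
  obtain ⟨m, hm⟩ : ∃ m : ι → CGA p G, ∀ i, ((augIhat p G) ^ n).mkQ (m i) = w i :=
    ⟨fun i => (Submodule.mkQ_surjective _ (w i)).choose,
      fun i => (Submodule.mkQ_surjective _ (w i)).choose_spec⟩
  have h1 : ∀ l : ι → ZMod p, ∃ U : OpenNormalSubgroup G, l ≠ 0 →
      ev p U (∑ i, l i • m i) ∉ (augI p (G ⧸ U.toSubgroup)) ^ n := by
    intro l
    by_cases hl : l = 0
    · exact ⟨topON G, fun h => absurd hl h⟩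
    by_contra hcon
    push Not at hcon
    apply hl
    have h2 : (∑ i, l i • m i) ∈ (augIhat p G) ^ n := hC p G k hk n hn _ fun U => (hcon U).2
    have h3 : ∑ i, l i • w i = 0 := by
      have h4 : ((augIhat p G) ^ n).mkQ (∑ i, l i • m i) = 0 := by
        rw [Submodule.mkQ_apply, Submodule.Quotient.mk_eq_zero]
        exact h2
      rw [map_sum] at h4
      rw [← h4]
      exact Finset.sum_congr rfl fun i _ => by rw [map_smul, hm]
    funext i
    exact Fintype.linearIndependent_iff.mp hw l h3 i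
  choose U hU using h1
  obtain ⟨V, hV⟩ := exists_lower (Finset.univ : Finset (ι → ZMod p)) U
  have : Finite (G ⧸ V.toSubgroup) := inferInstance
  have : Module.Finite (ZMod p) (MonoidAlgebra (ZMod p) (G ⧸ V.toSubgroup)) :=
    Module.Finite.of_basis (MonoidAlgebra.basis (G ⧸ V.toSubgroup) (ZMod p))
  have hli : LinearIndependent (ZMod p)
      (fun i => ((augI p (G ⧸ V.toSubgroup)) ^ n).mkQ (ev p V (m i))) := by
    rw [Fintype.linearIndependent_iff]
    intro l hl
    by_contra hcon
    have hl0 : l ≠ 0 := by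
      rintro rfl
      exact hcon fun i => rfl
    apply hU l hl0
    have h5 : ev p V (∑ i, l i • m i) ∈ (augI p (G ⧸ V.toSubgroup)) ^ n := by
      rw [← Submodule.Quotient.mk_eq_zero, ← Submodule.mkQ_apply, map_sum, map_sum, ← hl]
      exact Finset.sum_congr rfl fun i _ => by rw [map_smul, map_smul]
    have h6 := (hA p (G ⧸ V.toSubgroup)).2.2.2.2 (G ⧸ (U l).toSubgroup)
      (QuotientGroup.map V.toSubgroup (U l).toSubgroup (MonoidHom.id G)
        (hV l (Finset.mem_univ l))) n _ h5
    have h7 : transMap p (hV l (Finset.mem_univ l)) (ev p V (∑ i, l i • m i)) =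
        ev p (U l) (∑ i, l i • m i) :=
      (∑ i, l i • m i : CGA p G).2 V (U l) (hV l (Finset.mem_univ l))
    rw [← h7]
    exact h6
  exact (hli.fintype_card_le_finrank).trans (hB V)

end Pool.Agent.H82.PRP.AUP

namespace Pool.Agent.H82.PRP

theorem aup_thm (hC : CLOStmt) (hA : AUGBStmt) : AUPStmt := by
  intro p _ G _ _ _ _ k hk b hb n hn
  have hrank : Module.rank (ZMod p) (CGA p G ⧸ (augIhat p G) ^ (n + 1)) ≤ b (n + 1) := by
    refine rank_le fun s hs => ?_
    have := AUP.card_le hA hC hk (Nat.le_add_left 1 n) (fun U => hb U (n + 1) (Nat.le_add_left 1 n))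
      (fun i : s => (i : CGA p G ⧸ (augIhat p G) ^ (n + 1))) hs
    simpa using this
  have hfin : Module.Finite (ZMod p) (CGA p G ⧸ (augIhat p G) ^ (n + 1)) := by
    rw [← Module.rank_lt_aleph0_iff]
    exact hrank.trans_lt (Cardinal.natCast_lt_aleph0)
  set f : (↥((augIhat p G) ^ n) ⧸
      ((augIhat p G) ^ (n + 1)).comap ((augIhat p G) ^ n).subtype) →ₗ[ZMod p]
      (CGA p G ⧸ (augIhat p G) ^ (n + 1)) :=
    Submodule.mapQ _ _ ((augIhat p G) ^ n).subtype le_rfl with hf
  have hinj : Function.Injective f := by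
    rw [← LinearMap.ker_eq_bot, hf, Submodule.ker_mapQ, Submodule.mkQ_map_self]
  refine ⟨Module.Finite.of_injective f hinj, ?_⟩
  unfold aSeq
  refine (LinearMap.finrank_le_finrank_of_injective hinj).trans ?_
  exact Module.finrank_le_of_rank_le hrank

end Pool.Agent.H82.PRP
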