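import Pool.Agent.H82.PRP.Stmts

/-!
# Normal forms in a section of a finite `p`-group
-/

namespace Pool.Agent.H82.PRP.BASISP

/-- If `B` has index `p` in the finite `p`-group `K` there is `b` such that every element of `K`
is `b ^ e * h` with `e < p` and `h` in `B`. -/
lemma step {p : ℕ} [hp : Fact p.Prime] {K : Type} [Group K] [Finite K] (hK : IsPGroup p K)
    (B : Subgroup K) (hB : B.index = p) :
    ∃ b : K, ∀ g : K, ∃ e : ℕ, e < p ∧ ∃ h ∈ B, g = b ^ e * h := by
  classical
  obtain ⟨n, hn⟩ := IsPGroup.iff_card.mp hK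
  have hn0 : n ≠ 0 := by
    rintro rfl
    rw [pow_zero] at hn
    have h1 : B.index ∣ Nat.card K := B.index_dvd_card
    rw [hB, hn] at h1
    exact hp.out.one_lt.ne' (Nat.dvd_one.mp h1)
  have hmin : B.index = (Nat.card K).minFac := by
    rw [hB, hn, hp.out.pow_minFac hn0]
  have : B.Normal := Subgroup.normal_of_index_eq_minFac_card hmin
  have hcard : Nat.card (K ⧸ B) = p := by
    rw [← hB]
    rfl
  obtain ⟨b, hb⟩ : ∃ b : K, b ∉ B := by
    by_contra hcon
    push Not at hcon
    have : B = ⊤ := by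
      ext x
      simp [hcon x]
    rw [this, Subgroup.index_top] at hB
    exact hp.out.one_lt.ne hB
  have hb1 : (QuotientGroup.mk b : K ⧸ B) ≠ 1 := by
    intro h
    exact hb ((QuotientGroup.eq_one_iff b).mp h)
  have hord : orderOf (QuotientGroup.mk b : K ⧸ B) = p := by
    have h1 : orderOf (QuotientGroup.mk b : K ⧸ B) ∣ p := by
      rw [← hcard]
      exact orderOf_dvd_natCard _
    rcases (Nat.dvd_prime hp.out).mp h1 with h | h
    · exact absurd (orderOf_eq_one_iff.mp h) hb1
    · exact h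
  refine ⟨b, fun g => ?_⟩
  have hg : (QuotientGroup.mk g : K ⧸ B) ∈ Submonoid.powers (QuotientGroup.mk b : K ⧸ B) :=
    mem_powers_of_prime_card hcard hb1
  rw [mem_powers_iff_mem_range_orderOf, hord] at hg
  obtain ⟨e, he, heq⟩ := Finset.mem_image.mp hg
  refine ⟨e, Finset.mem_range.mp he, (b ^ e)⁻¹ * g, ?_, by group⟩
  have h2 : (QuotientGroup.mk (b ^ e) : K ⧸ B) = QuotientGroup.mk g := heq
  exact QuotientGroup.eq.mp h2

lemma main {p : ℕ} [hp : Fact p.Prime] {Q : Type} [Group Q] [Finite Q] (hQ : IsPGroup p Q) :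
    ∀ (c : ℕ) (B : Subgroup Q), B.index ≤ p ^ c →
    ∃ b : Fin c → Q, ∀ g : Q, ∃ e : Fin c → ℕ, (∀ i, e i < p) ∧ ∃ h ∈ B,
      g = (List.ofFn fun i => b i ^ e i).prod * h := by
  intro c
  induction c with
  | zero =>
    intro B hB
    have h1 : B.index = 1 := by
      have h0 : B.index ≠ 0 := Subgroup.index_ne_zero_of_finite
      rw [pow_zero] at hB
      omega
    have h2 : B = ⊤ := Subgroup.index_eq_one.mp h1
    refine ⟨fun _ => 1, fun g => ⟨fun _ => 0, fun i => i.elim0, g, ?_, ?_⟩⟩
    · rw [h2]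
      exact Subgroup.mem_top g
    · simp
  | succ c ih =>
    intro B hB
    by_cases hT : B = ⊤
    · refine ⟨fun _ => 1, fun g => ⟨fun _ => 0, fun i => hp.out.pos, g, ?_, ?_⟩⟩
      · rw [hT]
        exact Subgroup.mem_top g
      · simp
    obtain ⟨N, hN⟩ := IsPGroup.iff_card.mp hQ
    obtain ⟨n, hn⟩ := IsPGroup.iff_card.mp (hQ.to_subgroup B)
    have hmul : Nat.card B * B.index = Nat.card Q := B.card_mul_index
    have hlt : n < N := by
      have h1 : p ^ n ∣ p ^ N := by
        rw [← hn, ← hN]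
        exact Subgroup.card_subgroup_dvd_card B
      have h2 : n ≤ N := (Nat.pow_dvd_pow_iff_le_right hp.out.one_lt).mp h1
      rcases h2.lt_or_eq with h | h
      · exact h
      · exfalso
        apply hT
        apply Subgroup.eq_top_of_card_eq
        rw [hn, hN, h]
    obtain ⟨K, hKc, hBK⟩ := Sylow.exists_subgroup_card_pow_succ (G := Q) (p := p) (n := n)
      (by rw [hN]; exact pow_dvd_pow p hlt) (H := B) hn
    have hmulK : Nat.card K * K.index = Nat.card Q := K.card_mul_index
    have hKi : B.index = p * K.index := by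
      have hpn : 0 < p ^ n := pow_pos hp.out.pos n
      apply Nat.eq_of_mul_eq_mul_left hpn
      rw [← mul_assoc, ← pow_succ, ← hKc, hmulK, ← hn, hmul]
    have hKle : K.index ≤ p ^ c := by
      rw [hKi, pow_succ'] at hB
      exact Nat.le_of_mul_le_mul_left hB hp.out.pos
    obtain ⟨b', hb'⟩ := ih K hKle
    have hrel : (B.subgroupOf K).index = p := by
      have h1 : B.relIndex K * K.index = B.index := Subgroup.relIndex_mul_index hBK
      have h3 : 0 < K.index := Nat.pos_of_ne_zero Subgroup.index_ne_zero_of_finite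
      have h4 : B.relIndex K = p := by
        apply Nat.eq_of_mul_eq_mul_right h3
        rw [h1, hKi]
      exact h4
    obtain ⟨b0, hb0⟩ := step (hQ.to_subgroup K) (B.subgroupOf K) hrel
    refine ⟨Fin.snoc b' (b0 : Q), fun g => ?_⟩
    obtain ⟨e', he', h', hh', hg⟩ := hb' g
    obtain ⟨e0, he0, h0, hh0, hg0⟩ := hb0 ⟨h', hh'⟩
    refine ⟨Fin.snoc e' e0, ?_, (h0 : Q), Subgroup.mem_subgroupOf.mp hh0, ?_⟩
    · intro i
      refine Fin.lastCases ?_ ?_ i
      · simpa using he0
      · intro j
        simpa using he' j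
    · have h5 : h' = (b0 : Q) ^ e0 * (h0 : Q) := by
        have := congrArg Subtype.val hg0
        simpa using this
      have h6 : (List.ofFn fun i => (Fin.snoc b' (b0 : Q) : Fin (c + 1) → Q) i ^
          (Fin.snoc e' e0 : Fin (c + 1) → ℕ) i).prod =
          (List.ofFn fun i => b' i ^ e' i).prod * (b0 : Q) ^ e0 := by
        rw [List.ofFn_succ']
        simp
      rw [h6, mul_assoc, ← h5, ← hg]

end Pool.Agent.H82.PRP.BASISP

namespace Pool.Agent.H82.PRP

theorem basisp_thm : BASISPStmt := by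
  intro p _ P _ _ hP A B hBA _ c hc
  obtain ⟨b, hb⟩ := BASISP.main (hP.to_subgroup A) c (B.subgroupOf A) hc
  refine ⟨fun i => (b i : P), fun i => (b i).2, fun g hg => ?_⟩
  obtain ⟨e, he, h, hh, heq⟩ := hb ⟨g, hg⟩
  refine ⟨e, he, (h : P), Subgroup.mem_subgroupOf.mp hh, ?_⟩
  have h1 := congrArg Subtype.val heq
  have h2 : ((List.ofFn fun i => b i ^ e i).prod : A) =
      ((List.ofFn fun i => b i ^ e i).prod) := rfl
  have h3 : (((List.ofFn fun i => b i ^ e i).prod : A) : P) =
      (List.ofFn fun i => (b i : P) ^ e i).prod := by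
    have := map_list_prod A.subtype (List.ofFn fun i => b i ^ e i)
    rw [List.map_ofFn] at this
    simpa [Function.comp_def] using this
  simp only [Subgroup.coe_mul] at h1
  rw [h1, h3]

end Pool.Agent.H82.PRP
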